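import Pool.Agent.H77.LK.Base

set_option autoImplicit false

open MeasureTheory Metric Set ProbabilityTheory
open scoped ENNReal

namespace Pool.Agent.H77.LK
open Pool.Agent.H85.LK

theorem l1_contr (hHK : T_HK) (hINT : T_INT) {N : ℕ} {s : ℝ} (hs : 0 < s) {B : Set (E N)}
    (hB : MeasurableSet B) (hb : Bornology.IsBounded B) {f : E N → ℝ} (hf : Bd B f)
    (h0 : ∀ x, 0 ≤ f x) :
    Integrable (fun x => B.indicator (fun _ => (1 : ℝ)) x * sm N s f x) ∧
    ∫ x, B.indicator (fun _ => (1 : ℝ)) x * sm N s f x ≤ ∫ x, f x := by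
  have hI : Bd B (B.indicator (fun _ => (1 : ℝ))) := bd_ind hB
  have h1 := hINT N s B _ f hs hB hb hI hf
  have h2 := hINT N s B f _ hs hB hb hf hI
  refine ⟨h1.2.2.2.2.2.2.2.2.2.2, ?_⟩
  rw [sm_symm hINT hs hB hb hI hf]
  have h3 : ∀ x, sm N s (B.indicator (fun _ => (1 : ℝ))) x ≤ 1 := by
    intro x
    refine (le_abs_self _).trans (h1.2.2.2.2.2.2.2.2.1 1 (fun y => ?_) x)
    by_cases h : y ∈ B <;> simp [h]
  refine integral_mono_of_nonneg (Filter.Eventually.of_forall fun x => ?_) h2.2.2.2.1
    (Filter.Eventually.of_forall fun x => ?_)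
  · refine mul_nonneg (sm_nonneg hHK hs (fun y => ?_) x) (h0 x)
    exact indicator_nonneg (fun _ _ => zero_le_one) y
  · simp only
    nlinarith [h3 x, h0 x]

theorem it_diff (hHK : T_HK) (hINT : T_INT) {N : ℕ} {s : ℝ} (hs : 0 < s) {A A' : Set (E N)}
    (hA : MeasurableSet A) (hA' : MeasurableSet A') (hb : Bornology.IsBounded A)
    (hb' : Bornology.IsBounded A') (m : ℕ) :
    ∫ x, |it N s A m x - it N s A' m x| ≤ (m + 1) * volume.real (symmDiff A A') := by
  have hB : MeasurableSet (A ∪ A') := hA.union hA'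
  have hbB : Bornology.IsBounded (A ∪ A') := hb.union hb'
  have hD : MeasurableSet (symmDiff A A') := hA.symmDiff hA'
  have hbD : Bornology.IsBounded (symmDiff A A') := hbB.subset symmDiff_subset_union
  have hID : Integrable ((symmDiff A A').indicator (fun _ => (1 : ℝ))) :=
    (integrable_indicator_iff hD).2 (integrableOn_const hbD.measure_lt_top.ne)
  have eD : ∫ x, (symmDiff A A').indicator (fun _ => (1 : ℝ)) x = volume.real (symmDiff A A') := by
    rw [integral_indicator_const _ hD]; simp
  induction m with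
  | zero =>
    have : (fun x => |it N s A 0 x - it N s A' 0 x|) =
        (symmDiff A A').indicator (fun _ => (1 : ℝ)) := by
      ext x
      by_cases h1 : x ∈ A <;> by_cases h2 : x ∈ A' <;> simp [it, h1, h2, mem_symmDiff]
    rw [this, eD]; simp
  | succ m ih =>
    set u := it N s A m with hu
    set u' := it N s A' m with hu'
    have fu := it_facts hHK hINT hs hA hb m
    have fu' := it_facts hHK hINT hs hA' hb' m
    have bu : Bd (A ∪ A') u := bd_mono subset_union_left fu.1
    have bu' : Bd (A ∪ A') u' := bd_mono subset_union_right fu'.1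
    have bf : Bd (A ∪ A') (fun x => |u x - u' x|) := bd_abs (bd_sub bu bu')
    obtain ⟨c1, c2⟩ := l1_contr hHK hINT hs hB hbB bf (fun x => abs_nonneg _)
    have key : ∀ x, |it N s A (m + 1) x - it N s A' (m + 1) x| ≤
        (A ∪ A').indicator (fun _ => (1 : ℝ)) x * sm N s (fun x => |u x - u' x|) x +
          (symmDiff A A').indicator (fun _ => (1 : ℝ)) x := by
      intro x
      have k1 : |sm N s u x - sm N s u' x| ≤ sm N s (fun x => |u x - u' x|) x := by
        rw [← sm_sub hINT hs hB hbB bu bu' x, abs_le]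
        constructor
        · have h := sm_mono hHK hINT hs hB hbB (bd_const_mul (-1) bf) (bd_sub bu bu')
            (fun y => by rw [neg_one_mul]; exact neg_abs_le _) x
          have h' : sm N s (fun x => -1 * |u x - u' x|) x = - sm N s (fun x => |u x - u' x|) x := by
            unfold sm
            rw [← integral_neg]; congr 1; ext y; ring
          linarith
        · exact sm_mono hHK hINT hs hB hbB (bd_sub bu bu') bf (fun y => le_abs_self _) x
      have k2 : 0 ≤ sm N s u x ∧ sm N s u x ≤ 1 := by
        refine ⟨sm_nonneg hHK hs (fun y => (fu.2 y).1) x, (le_abs_self _).trans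
          ((hINT N s A u u hs hA hb fu.1 fu.1).2.2.2.2.2.2.2.2.1 1 (fun y => ?_) x)⟩
        rw [abs_of_nonneg (fu.2 y).1]; exact (fu.2 y).2
      have k3 : 0 ≤ sm N s u' x ∧ sm N s u' x ≤ 1 := by
        refine ⟨sm_nonneg hHK hs (fun y => (fu'.2 y).1) x, (le_abs_self _).trans
          ((hINT N s A' u' u' hs hA' hb' fu'.1 fu'.1).2.2.2.2.2.2.2.2.1 1 (fun y => ?_) x)⟩
        rw [abs_of_nonneg (fu'.2 y).1]; exact (fu'.2 y).2
      have k0 : 0 ≤ sm N s (fun x => |u x - u' x|) x := (abs_nonneg _).trans k1
      simp only [it]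
      by_cases h1 : x ∈ A <;> by_cases h2 : x ∈ A'
      · simpa [h1, h2, mem_symmDiff] using k1
      · simp only [h1, h2, indicator_of_mem, indicator_of_notMem, not_false_eq_true, sub_zero,
          mem_union, or_false, mem_symmDiff, and_self, or_false, one_mul, true_or]
        rw [abs_of_nonneg k2.1]; linarith [k2.2]
      · simp only [h1, h2, indicator_of_mem, indicator_of_notMem, not_false_eq_true, zero_sub,
          mem_union, or_true, mem_symmDiff, and_self, one_mul, abs_neg]
        rw [abs_of_nonneg k3.1]; linarith [k3.2]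
      · simp [h1, h2, mem_symmDiff]
    calc ∫ x, |it N s A (m + 1) x - it N s A' (m + 1) x|
        ≤ ∫ x, ((A ∪ A').indicator (fun _ => (1 : ℝ)) x * sm N s (fun x => |u x - u' x|) x +
          (symmDiff A A').indicator (fun _ => (1 : ℝ)) x) :=
          integral_mono_of_nonneg (Filter.Eventually.of_forall fun x => abs_nonneg _)
            (c1.add hID) (Filter.Eventually.of_forall key)
      _ = (∫ x, (A ∪ A').indicator (fun _ => (1 : ℝ)) x * sm N s (fun x => |u x - u' x|) x) +
          volume.real (symmDiff A A') := by rw [integral_add c1 hID, eD]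
      _ ≤ (m + 1) * volume.real (symmDiff A A') + volume.real (symmDiff A A') := by
          linarith [c2, ih]
      _ = ((m + 1 : ℕ) + 1) * volume.real (symmDiff A A') := by push_cast; ring

theorem pf_CNT (hHK : T_HK) (hINT : T_INT) : T_CNT := by
  intro N s A A' m hs hA hA' hb hb'
  have fu := it_facts hHK hINT hs hA hb m
  have fu' := it_facts hHK hINT hs hA' hb' m
  have i1 := (hINT N s A _ _ hs hA hb fu.1 fu.1).2.2.2.1
  have i2 := (hINT N s A' _ _ hs hA' hb' fu'.1 fu'.1).2.2.2.1
  have h := it_diff hHK hINT hs hA hA' hb hb' m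
  unfold Phi
  rw [← integral_sub i1 i2]
  exact (abs_integral_le_integral_abs).trans h

end Pool.Agent.H77.LK
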