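import Pool.Agent.H77.LK.Base

set_option autoImplicit false

open MeasureTheory Metric Set ProbabilityTheory
open scoped ENNReal

namespace Pool.Agent.H77.LK
open Pool.Agent.H85.LK

section
variable {N : ℕ} {s : ℝ} {e : E N} {h : ℝ}

theorem refl_inner (he : ‖e‖ = 1) (x : E N) :
    inner ℝ (refl e h x) e = 2 * h - inner ℝ x e := by
  unfold Pool.Agent.H85.LK.refl
  rw [inner_sub_left, inner_smul_left, real_inner_self_eq_norm_sq, he]
  simp only [conj_trivial]; ring

theorem refl_refl (he : ‖e‖ = 1) (x : E N) : refl e h (refl e h x) = x := by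
  conv_lhs => unfold Pool.Agent.H85.LK.refl
  rw [show inner ℝ (x - (2 * (inner ℝ x e - h)) • e) e = 2 * h - inner ℝ x e from
    refl_inner he x, sub_sub, ← add_smul]
  have : 2 * (inner ℝ x e - h) + 2 * (2 * h - inner ℝ x e - h) = 0 := by ring
  rw [this, zero_smul, sub_zero]

theorem refl_norm (he : ‖e‖ = 1) (x y : E N) :
    ‖refl e h x - y‖ ^ 2 = ‖x - y‖ ^ 2 + 4 * (inner ℝ x e - h) * (inner ℝ y e - h) := by
  have e1 : refl e h x - y = (x - y) - (2 * (inner ℝ x e - h)) • e := by unfold Pool.Agent.H85.LK.refl; abel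
  rw [e1, norm_sub_sq_real, inner_smul_right, norm_smul, he, inner_sub_left]
  rw [mul_one, Real.norm_eq_abs, sq_abs]
  ring

theorem refl_norm2 (he : ‖e‖ = 1) (x y : E N) : ‖refl e h x - refl e h y‖ = ‖x - y‖ := by
  have h1 := refl_norm (h := h) he x (refl e h y)
  have h2 := refl_norm (h := h) he y x
  rw [refl_inner he y] at h1
  rw [norm_sub_rev (refl e h y) x] at h2
  rw [h2, norm_sub_rev y x] at h1
  have : ‖refl e h x - refl e h y‖ ^ 2 = ‖x - y‖ ^ 2 := by rw [h1]; ring
  exact (sq_eq_sq₀ (norm_nonneg _) (norm_nonneg _)).1 this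

theorem refl_cont (e : E N) (h : ℝ) : Continuous (refl e h) := by
  unfold Pool.Agent.H85.LK.refl; fun_prop

theorem refl_mp (he : ‖e‖ = 1) : MeasurePreserving (refl e h) volume volume := by
  have h1 : refl e h = (fun x => x + (2 * h) • e) ∘ ((ℝ ∙ e)ᗮ).reflection := by
    ext1 x
    simp only [Function.comp_apply]
    rw [Submodule.reflection_orthogonal_apply, Submodule.reflection_singleton_apply, he]
    unfold Pool.Agent.H85.LK.refl
    rw [real_inner_comm]
    simp only [RCLike.ofReal_real_eq_id, id_eq, one_pow, div_one]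
    rw [two_smul, mul_sub, sub_smul, two_mul, add_smul]
    abel
  rw [h1]
  exact (measurePreserving_add_right volume _).comp
    (LinearIsometryEquiv.measurePreserving _)

theorem refl_emb (he : ‖e‖ = 1) : MeasurableEmbedding (refl e h) := by
  let H : E N ≃ₜ E N :=
    { toFun := refl e h
      invFun := refl e h
      left_inv := refl_refl he
      right_inv := refl_refl he
      continuous_toFun := refl_cont e h
      continuous_invFun := refl_cont e h }
  exact H.measurableEmbedding

theorem hk_refl (he : ‖e‖ = 1) (x y : E N) :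
    hk N s (x - refl e h y) = hk N s (refl e h x - y) := by
  unfold hk
  have := refl_norm2 (h := h) he (refl e h x) y
  rw [refl_refl he] at this
  rw [this]

theorem sm_refl (he : ‖e‖ = 1) (f : E N → ℝ) (x : E N) :
    sm N s f (refl e h x) = sm N s (fun y => f (refl e h y)) x := by
  unfold sm
  rw [← (refl_mp (h := h) he).integral_comp (refl_emb he) (fun y => hk N s (refl e h x - y) * f y)]
  congr 1; ext y
  rw [hk_refl he, refl_refl he]

theorem sm_add' (hINT : T_INT) (hs : 0 < s) {A : Set (E N)} (hA : MeasurableSet A)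
    (hb : Bornology.IsBounded A) {f g : E N → ℝ} (hf : Bd A f) (hg : Bd A g) (x : E N) :
    sm N s (fun y => f y + g y) x = sm N s f x + sm N s g x := by
  unfold sm
  rw [← integral_add ((hINT N s A f g hs hA hb hf hg).2.2.2.2.2.2.2.2.2.1 x)
    ((hINT N s A g f hs hA hb hg hf).2.2.2.2.2.2.2.2.2.1 x)]
  exact integral_congr_ae (Filter.Eventually.of_forall fun y => by simp only; ring)

theorem hk_anti (he : ‖e‖ = 1) (hs : 0 < s) (x y : E N)
    (hxy : 0 ≤ (inner ℝ x e - h) * (inner ℝ y e - h)) :
    hk N s (refl e h x - y) ≤ hk N s (x - y) := by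
  unfold hk
  refine mul_le_mul_of_nonneg_left (Real.exp_le_exp.2 ?_) (Real.rpow_nonneg (by positivity) _)
  have := refl_norm (h := h) he x y
  rw [div_le_div_iff_of_pos_right (by positivity)]
  nlinarith

theorem hk_anti' (he : ‖e‖ = 1) (hs : 0 < s) (x y : E N)
    (hxy : (inner ℝ x e - h) * (inner ℝ y e - h) ≤ 0) :
    hk N s (x - y) ≤ hk N s (refl e h x - y) := by
  unfold hk
  refine mul_le_mul_of_nonneg_left (Real.exp_le_exp.2 ?_) (Real.rpow_nonneg (by positivity) _)
  have := refl_norm (h := h) he x y
  rw [div_le_div_iff_of_pos_right (by positivity)]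
  nlinarith

theorem sm_antisymm_nonneg (hINT : T_INT) (hs : 0 < s) (he : ‖e‖ = 1) {C : Set (E N)}
    (hC : MeasurableSet C) (hb : Bornology.IsBounded C) {F : E N → ℝ} (hF : Bd C F)
    (h1 : ∀ y, F (refl e h y) = - F y) (h2 : ∀ y, inner ℝ y e ≤ h → 0 ≤ F y) (x : E N)
    (hx : inner ℝ x e ≤ h) : 0 ≤ sm N s F x := by
  have e1 : sm N s F (refl e h x) = - sm N s F x := by
    rw [sm_refl he]
    unfold sm
    rw [← integral_neg]
    congr 1; ext y; simp only [h1]; ring
  have i1 := (hINT N s C F F hs hC hb hF hF).2.2.2.2.2.2.2.2.2.1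
  have e2 : 2 * sm N s F x = ∫ y, (hk N s (x - y) * F y - hk N s (refl e h x - y) * F y) := by
    rw [integral_sub (i1 x) (i1 (refl e h x))]
    have : sm N s F (refl e h x) = ∫ y, hk N s (refl e h x - y) * F y := rfl
    rw [← this, e1]
    have : sm N s F x = ∫ y, hk N s (x - y) * F y := rfl
    rw [← this]; ring
  have e3 : 0 ≤ ∫ y, (hk N s (x - y) * F y - hk N s (refl e h x - y) * F y) := by
    refine integral_nonneg fun y => ?_
    simp only [Pi.zero_apply]
    rw [← sub_mul]
    by_cases hy : inner ℝ y e ≤ h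
    · refine mul_nonneg (sub_nonneg.2 (hk_anti he hs x y ?_)) (h2 y hy)
      exact mul_nonneg_of_nonpos_of_nonpos (by linarith) (by linarith)
    · have hy' : h < inner ℝ y e := not_le.1 hy
      have h3 : 0 ≤ F (refl e h y) := h2 _ (by rw [refl_inner he]; linarith)
      rw [h1] at h3
      refine mul_nonneg_of_nonpos_of_nonpos (sub_nonpos.2 (hk_anti' he hs x y ?_)) (by linarith)
      exact mul_nonpos_of_nonpos_of_nonneg (by linarith) (by linarith)
  linarith

/-- the relation preserved by the iteration -/
def Rel (e : E N) (h : ℝ) (u w : E N → ℝ) : Prop :=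
  ∀ x, inner ℝ x e ≤ h → u x + u (refl e h x) ≤ w x + w (refl e h x) ∧
    |u x - u (refl e h x)| ≤ w x - w (refl e h x)

theorem Rel_sum (he : ‖e‖ = 1) {u w : E N → ℝ} (hR : Rel e h u w) (x : E N) :
    u x + u (refl e h x) ≤ w x + w (refl e h x) := by
  by_cases hx : inner ℝ x e ≤ h
  · exact (hR x hx).1
  · have := (hR (refl e h x) (by rw [refl_inner he]; linarith [not_le.1 hx])).1
    rw [refl_refl he] at this
    linarith

theorem bd_refl (he : ‖e‖ = 1) {C : Set (E N)} (hC : ∀ x, refl e h x ∈ C → x ∈ C)
    {f : E N → ℝ} (hf : Bd C f) : Bd C (fun x => f (refl e h x)) := by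
  obtain ⟨M, hM⟩ := hf.2.1
  exact ⟨hf.1.comp (refl_cont e h).measurable, ⟨M, fun x => hM _⟩, fun x hx =>
    hf.2.2 _ fun h' => hx (hC x h')⟩

theorem Rel_sm (hHK : T_HK) (hINT : T_INT) (hs : 0 < s) (he : ‖e‖ = 1) {C : Set (E N)}
    (hC : MeasurableSet C) (hb : Bornology.IsBounded C) (hCr : ∀ x, refl e h x ∈ C → x ∈ C)
    {u w : E N → ℝ} (hu : Bd C u) (hw : Bd C w) (hR : Rel e h u w) :
    Rel e h (sm N s u) (sm N s w) := by
  intro x hx
  have hu' := bd_refl he hCr hu
  have hw' := bd_refl he hCr hw
  have b1 := bd_sub hu hu'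
  have b2 := bd_sub hw hw'
  constructor
  · rw [sm_refl he, sm_refl he, ← sm_add' hINT hs hC hb hu hu', ← sm_add' hINT hs hC hb hw hw']
    exact sm_mono hHK hINT hs hC hb (bd_add hu hu') (bd_add hw hw') (Rel_sum he hR) x
  · rw [sm_refl he, sm_refl he, ← sm_sub hINT hs hC hb hu hu', ← sm_sub hINT hs hC hb hw hw']
    have p1 := sm_antisymm_nonneg hINT hs he hC hb (bd_sub b2 b1)
      (fun y => by simp only [refl_refl he]; ring)
      (fun y hy => by have := (abs_le.1 (hR y hy).2).2; linarith) x hx
    have p2 := sm_antisymm_nonneg hINT hs he hC hb (bd_add b2 b1)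
      (fun y => by simp only [refl_refl he]; ring)
      (fun y hy => by have := (abs_le.1 (hR y hy).2).1; linarith) x hx
    rw [sm_sub hINT hs hC hb b2 b1] at p1
    rw [sm_add' hINT hs hC hb b2 b1] at p2
    rw [abs_le]
    constructor <;> linarith

end

theorem pf_POL (hHK : T_HK) (hINT : T_INT) : T_POL := by
  intro N s e h A m hs he hh hA hb
  set P := pol e h A with hP
  have mr : Measurable (refl e h) := (refl_cont e h).measurable
  have hAr : MeasurableSet (refl e h ⁻¹' A) := mr hA
  have mi : Measurable (fun x : E N => (inner ℝ x e : ℝ)) :=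
    (continuous_id.inner continuous_const).measurable
  have hPm : MeasurableSet P := by
    have : P = ({x | (inner ℝ x e : ℝ) < h} ∩ (A ∪ refl e h ⁻¹' A)) ∪
        ({x | h ≤ (inner ℝ x e : ℝ)} ∩ (A ∩ refl e h ⁻¹' A)) := by
      ext x; simp only [hP, pol, mem_setOf_eq, mem_union, mem_inter_iff, mem_preimage]
    rw [this]
    exact ((measurableSet_lt mi measurable_const).inter (hA.union hAr)).union
      ((measurableSet_le measurable_const mi).inter (hA.inter hAr))
  set C := A ∪ refl e h ⁻¹' A with hCdef
  have hC : MeasurableSet C := hA.union hAr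
  have hCr : ∀ x, refl e h x ∈ C → x ∈ C := by
    intro x hx
    rcases hx with hx | hx
    · exact Or.inr hx
    · left
      have : refl e h (refl e h x) ∈ A := hx
      rwa [refl_refl he] at this
  have hbr : Bornology.IsBounded (refl e h ⁻¹' A) := by
    obtain ⟨R, hR⟩ := hb.subset_closedBall 0
    refine (isBounded_closedBall (x := refl e h 0) (r := R)).subset fun x hx => ?_
    have h1 := hR hx
    rw [mem_closedBall, dist_eq_norm] at h1 ⊢
    have h2 := refl_norm2 (h := h) he (refl e h x) 0
    rw [refl_refl he] at h2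
    rwa [h2]
  have hbC : Bornology.IsBounded C := hb.union hbr
  have hPC : P ⊆ C := by
    intro x hx
    rcases hx with ⟨_, h1⟩ | ⟨_, h1⟩
    · exact h1
    · exact Or.inl h1.1
  have hbP : Bornology.IsBounded P := hbC.subset hPC
  have hAC : A ⊆ C := subset_union_left
  have memP : ∀ x : E N, inner ℝ x e < h → ((x ∈ P ↔ x ∈ A ∨ refl e h x ∈ A) ∧
      (refl e h x ∈ P ↔ x ∈ A ∧ refl e h x ∈ A)) := by
    intro x hx
    have hx' : ¬ (inner ℝ (refl e h x) e < h) := by rw [refl_inner he]; linarith
    have hx2 : h ≤ inner ℝ (refl e h x) e := not_lt.1 hx'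
    constructor
    · simp only [hP, pol, mem_setOf_eq, hx, true_and]
      constructor
      · rintro (h1 | h1)
        · exact h1
        · exact Or.inl h1.2.1
      · exact fun h1 => Or.inl h1
    · simp only [hP, pol, mem_setOf_eq, hx', false_and, false_or, hx2, true_and, refl_refl he]
      exact and_comm
  have memP' : ∀ x : E N, inner ℝ x e = h → (x ∈ P ↔ x ∈ A) ∧ refl e h x = x := by
    intro x hx
    have h1 : refl e h x = x := by
      unfold Pool.Agent.H85.LK.refl
      rw [hx]; simp
    refine ⟨?_, h1⟩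
    simp only [hP, pol, mem_setOf_eq, hx, lt_irrefl, false_and, le_refl, true_and, false_or, h1,
      and_self]
  have main : ∀ m, Rel e h (it N s A m) (it N s P m) := by
    intro m
    induction m with
    | zero =>
      intro x hx
      rcases hx.lt_or_eq with hx | hx
      · obtain ⟨m1, m2⟩ := memP x hx
        simp only [it, indicator]
        by_cases h1 : x ∈ A <;> by_cases h2 : refl e h x ∈ A <;>
          simp [m1, m2, h1, h2]
      · obtain ⟨m1, m2⟩ := memP' x hx
        rw [m2]
        simp only [it, indicator]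
        by_cases h1 : x ∈ A <;> simp [m1, h1]
    | succ m ih =>
      have fu := it_facts hHK hINT hs hA hb m
      have fw := it_facts hHK hINT hs hPm hbP m
      have G0 : ∀ x, 0 ≤ sm N s (it N s A m) x := sm_nonneg hHK hs fun y => (fu.2 y).1
      have G1 : ∀ x, 0 ≤ sm N s (it N s P m) x := sm_nonneg hHK hs fun y => (fw.2 y).1
      have hR := Rel_sm hHK hINT hs he hC hbC hCr (bd_mono hAC fu.1) (bd_mono hPC fw.1) ih
      intro x hx
      obtain ⟨r1, r2⟩ := hR x hx
      have g1 := G0 x
      have g2 := G0 (refl e h x)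
      have g3 := G1 x
      have g4 := G1 (refl e h x)
      rw [abs_le] at r2
      rcases hx.lt_or_eq with hx | hx
      · obtain ⟨m1, m2⟩ := memP x hx
        simp only [it, indicator]
        by_cases h1 : x ∈ A <;> by_cases h2 : refl e h x ∈ A
        · simp only [m1, m2, h1, h2, or_self, and_self, if_true, abs_le]
          exact ⟨r1, r2⟩
        · simp only [m1, m2, h1, h2, or_false, and_false, if_true, if_false, abs_le]
          refine ⟨by linarith, by linarith, by linarith⟩
        · simp only [m1, m2, h1, h2, or_true, and_true, if_true, if_false, abs_le]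
          refine ⟨by linarith, by linarith, by linarith⟩
        · simp [m1, m2, h1, h2]
      · obtain ⟨m1, m2⟩ := memP' x hx
        rw [m2] at r1 ⊢
        simp only [it, indicator]
        by_cases h1 : x ∈ A
        · simp only [m1, h1, if_true, sub_self, abs_zero, le_refl, and_true]
          exact r1
        · simp [m1, h1]
  have fu := it_facts hHK hINT hs hA hb m
  have fw := it_facts hHK hINT hs hPm hbP m
  have i1 := (hINT N s A _ _ hs hA hb fu.1 fu.1).2.2.2.1
  have i2 := (hINT N s P _ _ hs hPm hbP fw.1 fw.1).2.2.2.1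
  have j1 : Integrable (fun x => it N s A m (refl e h x)) :=
    ((refl_mp (h := h) he).integrable_comp_emb (refl_emb he)).2 i1
  have j2 : Integrable (fun x => it N s P m (refl e h x)) :=
    ((refl_mp (h := h) he).integrable_comp_emb (refl_emb he)).2 i2
  have e1 : ∫ x, it N s A m (refl e h x) = Phi N s A m :=
    (refl_mp (h := h) he).integral_comp (refl_emb he) _
  have e2 : ∫ x, it N s P m (refl e h x) = Phi N s P m :=
    (refl_mp (h := h) he).integral_comp (refl_emb he) _
  have k := integral_mono (i1.add j1) (i2.add j2) (fun x => Rel_sum he (main m) x)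
  simp only [Pi.add_apply] at k
  rw [integral_add i1 j1, integral_add i2 j2, e1, e2] at k
  have : Phi N s A m + Phi N s A m ≤ Phi N s P m + Phi N s P m := k
  linarith

end Pool.Agent.H77.LK
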