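import Pool.Agent.H77.LK.Base

set_option autoImplicit false

open MeasureTheory Metric Set ProbabilityTheory
open scoped ENNReal

namespace Pool.Agent.H77.LK
open Pool.Agent.H85.LK

/-- Cauchy-Schwarz -/
theorem cs_int {α : Type*} [MeasurableSpace α] {μ : Measure α} {f g : α → ℝ}
    (h1 : Integrable (fun x => f x ^ 2) μ) (h2 : Integrable (fun x => f x * g x) μ)
    (h3 : Integrable (fun x => g x ^ 2) μ) :
    (∫ x, f x * g x ∂μ) ^ 2 ≤ (∫ x, f x ^ 2 ∂μ) * ∫ x, g x ^ 2 ∂μ := by
  have key : ∀ t : ℝ, 0 ≤ (∫ x, g x ^ 2 ∂μ) * (t * t) + (2 * ∫ x, f x * g x ∂μ) * t +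
      ∫ x, f x ^ 2 ∂μ := by
    intro t
    have e : ∫ x, (f x + t * g x) ^ 2 ∂μ = (∫ x, g x ^ 2 ∂μ) * (t * t) +
        (2 * ∫ x, f x * g x ∂μ) * t + ∫ x, f x ^ 2 ∂μ := by
      have e1 : (fun x => (f x + t * g x) ^ 2) =
          fun x => (f x ^ 2 + (2 * t) * (f x * g x)) + t ^ 2 * g x ^ 2 := by
        ext x; ring
      have h2' : Integrable (fun x => (2 * t) * (f x * g x)) μ := h2.const_mul _
      have h3' : Integrable (fun x => t ^ 2 * g x ^ 2) μ := h3.const_mul _
      have h12 : Integrable (fun x => f x ^ 2 + (2 * t) * (f x * g x)) μ := h1.add h2'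
      rw [e1, integral_add h12 h3', integral_add h1 h2', integral_const_mul, integral_const_mul]
      ring
    rw [← e]
    exact integral_nonneg fun x => sq_nonneg _
  have := discrim_le_zero key
  unfold discrim at this
  nlinarith

/-- the killed operator -/
noncomputable def TA (N : ℕ) (s : ℝ) (A : Set (E N)) (f : E N → ℝ) : E N → ℝ :=
  A.indicator (sm N s f)

theorem bd_TA (hINT : T_INT) {N : ℕ} {s : ℝ} (hs : 0 < s) {A : Set (E N)}
    (hA : MeasurableSet A) (hb : Bornology.IsBounded A) {f : E N → ℝ} (hf : Bd A f) :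
    Bd A (TA N s A f) := by
  obtain ⟨M, hM⟩ := hf.2.1
  have h := hINT N s A f f hs hA hb hf hf
  exact bd_indicator hA h.2.2.2.2.2.2.1 (h.2.2.2.2.2.2.2.2.1 M hM)

theorem TA_symm (hINT : T_INT) {N : ℕ} {s : ℝ} (hs : 0 < s) {A : Set (E N)}
    (hA : MeasurableSet A) (hb : Bornology.IsBounded A) {f g : E N → ℝ} (hf : Bd A f)
    (hg : Bd A g) : ∫ x, f x * TA N s A g x = ∫ x, TA N s A f x * g x := by
  have e1 : (fun x => f x * TA N s A g x) = fun x => f x * sm N s g x := by
    ext x; unfold TA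
    by_cases h : x ∈ A
    · simp [h]
    · simp [h, hf.2.2 x h]
  have e2 : (fun x => TA N s A f x * g x) = fun x => sm N s f x * g x := by
    ext x; unfold TA
    by_cases h : x ∈ A
    · simp [h]
    · simp [h, hg.2.2 x h]
  rw [e1, e2]
  exact sm_symm hINT hs hA hb hf hg

theorem bd_pow (hINT : T_INT) {N : ℕ} {s : ℝ} (hs : 0 < s) {A : Set (E N)}
    (hA : MeasurableSet A) (hb : Bornology.IsBounded A) {f : E N → ℝ} (hf : Bd A f) (j : ℕ) :
    Bd A ((TA N s A)^[j] f) := by
  induction j with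
  | zero => exact hf
  | succ j ih => rw [Function.iterate_succ_apply']; exact bd_TA hINT hs hA hb ih

theorem shift (hINT : T_INT) {N : ℕ} {s : ℝ} (hs : 0 < s) {A : Set (E N)}
    (hA : MeasurableSet A) (hb : Bornology.IsBounded A) {v : E N → ℝ} (hv : Bd A v) (i j : ℕ) :
    ∫ x, (TA N s A)^[i] v x * (TA N s A)^[j] v x = ∫ x, v x * (TA N s A)^[i + j] v x := by
  induction i generalizing j with
  | zero => simp
  | succ i ih =>
    rw [Function.iterate_succ_apply', ← TA_symm hINT hs hA hb (bd_pow hINT hs hA hb hv i)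
      (bd_pow hINT hs hA hb hv j), ← Function.iterate_succ_apply' (TA N s A) j v, ih (j + 1)]
    congr 1; ext x; rw [show i + (j + 1) = i + 1 + j by ring]

theorem pow_le (hHK : T_HK) (hINT : T_INT) {N : ℕ} {s : ℝ} (hs : 0 < s) {A : Set (E N)}
    (hA : MeasurableSet A) (hb : Bornology.IsBounded A) {v : E N → ℝ} (hv : Bd A v) {M : ℝ}
    (hM0 : 0 ≤ M) (hM : ∀ x, |v x| ≤ M) (j : ℕ) :
    ∀ x, |(TA N s A)^[j] v x| ≤ M * it N s A j x := by
  induction j with
  | zero =>
    intro x
    simp only [Function.iterate_zero, id_eq, it]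
    by_cases h : x ∈ A
    · simpa [h] using hM x
    · simp [h, hv.2.2 x h]
  | succ j ih =>
    intro x
    rw [Function.iterate_succ_apply']
    have bj := bd_pow hINT hs hA hb hv j
    have bi := (it_facts hHK hINT hs hA hb j).1
    show |A.indicator (sm N s ((TA N s A)^[j] v)) x| ≤ M * A.indicator (sm N s (it N s A j)) x
    by_cases h : x ∈ A
    · simp only [h, indicator_of_mem]
      have e : M * sm N s (it N s A j) x = sm N s (fun y => M * it N s A j y) x := by
        unfold sm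
        rw [← integral_const_mul]; congr 1; ext y; ring
      rw [e, abs_le]
      constructor
      · have h1 := sm_mono hHK hINT hs hA hb (bd_const_mul (-1) (bd_const_mul M bi)) bj
          (fun y => by have := (abs_le.1 (ih y)).1; linarith) x
        have e2 : sm N s (fun y => -1 * (M * it N s A j y)) x =
            - sm N s (fun y => M * it N s A j y) x := by
          unfold sm
          rw [← integral_neg]; congr 1; ext y; ring
        linarith
      · exact sm_mono hHK hINT hs hA hb bj (bd_const_mul M bi)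
          (fun y => (abs_le.1 (ih y)).2) x
    · simp [h]

theorem ballbound (hHK : T_HK) (hINT : T_INT) {N : ℕ} {s τ : ℝ} (hs : 0 < s) (hτ : 0 ≤ τ)
    (h : ∀ f : E N → ℝ, Bd (ball (0 : E N) 1) f →
      ∫ x in ball (0 : E N) 1, sm N s f x ^ 2 ≤ τ ^ 2 * ∫ x, f x ^ 2) (j : ℕ) :
    Phi N s (ball 0 1) j ≤ τ ^ j * volume.real (ball (0 : E N) 1) := by
  set B := ball (0 : E N) 1 with hBdef
  have hB : MeasurableSet B := measurableSet_ball
  have hb : Bornology.IsBounded B := isBounded_ball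
  have eB : ∫ x, B.indicator (fun _ => (1 : ℝ)) x = volume.real B := by
    rw [integral_indicator_const _ hB]; simp
  have h2 : ∀ j, ∫ x, it N s B j x ^ 2 ≤ (τ ^ j) ^ 2 * volume.real B := by
    intro j
    induction j with
    | zero =>
      have : (fun x => it N s B 0 x ^ 2) = B.indicator (fun _ => (1 : ℝ)) := by
        ext x; by_cases hx : x ∈ B <;> simp [it, hx]
      rw [this, eB]; simp
    | succ j ih =>
      have e : ∫ x, it N s B (j + 1) x ^ 2 = ∫ x in B, sm N s (it N s B j) x ^ 2 := by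
        rw [← integral_indicator hB]
        congr 1; ext x
        by_cases hx : x ∈ B <;> simp [it, hx]
      rw [e]
      refine (h _ (it_facts hHK hINT hs hB hb j).1).trans ?_
      calc τ ^ 2 * ∫ x, it N s B j x ^ 2 ≤ τ ^ 2 * ((τ ^ j) ^ 2 * volume.real B) :=
            mul_le_mul_of_nonneg_left ih (sq_nonneg τ)
        _ = (τ ^ (j + 1)) ^ 2 * volume.real B := by ring
  have fj := it_facts hHK hINT hs hB hb j
  have i1 := hINT N s B _ _ hs hB hb (bd_ind hB) fj.1
  have i2 := hINT N s B _ _ hs hB hb fj.1 fj.1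
  have i3 := hINT N s B _ _ hs hB hb (bd_ind hB) (bd_ind hB)
  have c := cs_int i3.2.2.2.2.2.1 i1.2.2.2.2.1 i2.2.2.2.2.2.1
  have e1 : ∫ x, B.indicator (fun _ => (1 : ℝ)) x * it N s B j x = Phi N s B j := by
    unfold Phi
    congr 1; ext x
    by_cases hx : x ∈ B
    · simp [hx]
    · simp [hx, fj.1.2.2 x hx]
  have e2 : ∫ x, B.indicator (fun _ => (1 : ℝ)) x ^ 2 = volume.real B := by
    rw [← eB]
    congr 1; ext x
    by_cases hx : x ∈ B <;> simp [hx]
  rw [e1, e2] at c
  have c2 : Phi N s B j ^ 2 ≤ (τ ^ j * volume.real B) ^ 2 := by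
    refine c.trans ?_
    calc volume.real B * ∫ x, it N s B j x ^ 2
        ≤ volume.real B * ((τ ^ j) ^ 2 * volume.real B) :=
          mul_le_mul_of_nonneg_left (h2 j) measureReal_nonneg
      _ = (τ ^ j * volume.real B) ^ 2 := by ring
  exact le_of_sq_le_sq c2 (mul_nonneg (pow_nonneg hτ j) measureReal_nonneg)

theorem pf_PWR (hHK : T_HK) (hINT : T_INT) : T_PWR := by
  intro N s τ A v hs hτ hA hb hv hPhi hball
  obtain ⟨M', hM'⟩ := hv.2.1
  set M := max M' 0 with hMdef
  have hM0 : 0 ≤ M := le_max_right _ _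
  have hM : ∀ x, |v x| ≤ M := fun x => (hM' x).trans (le_max_left _ _)
  set a : ℕ → ℝ := fun j => ∫ x, v x * (TA N s A)^[j] v x with ha
  have bj := bd_pow hINT hs hA hb hv
  have a0 : ∫ x, v x ^ 2 = a 0 := by
    simp only [ha, Function.iterate_zero, id_eq]; congr 1; ext x; ring
  have a0nn : 0 ≤ a 0 := by rw [← a0]; exact integral_nonneg fun x => sq_nonneg _
  have eQ : Qf N s v = a 1 := by
    unfold Qf
    simp only [ha, Function.iterate_one]
    congr 1; ext x
    show _ = v x * A.indicator (sm N s v) x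
    by_cases h : x ∈ A
    · simp [h]
    · simp [h, hv.2.2 x h]
  have cs : ∀ m, a m ^ 2 ≤ a 0 * a (2 * m) := by
    intro m
    have i1 := hINT N s A v _ hs hA hb hv (bj m)
    have i2 := hINT N s A _ v hs hA hb (bj m) hv
    have c := cs_int i1.2.2.2.2.2.1 i1.2.2.2.2.1 i2.2.2.2.2.2.1
    have e : ∫ x, (TA N s A)^[m] v x ^ 2 = a (2 * m) := by
      have := shift hINT hs hA hb hv m m
      simp only [ha]
      rw [two_mul, ← this]; congr 1; ext x; ring
    rw [a0, e] at c
    exact c
  rw [eQ, a0]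
  by_cases h1 : a 1 ≤ 0
  · exact h1.trans (mul_nonneg hτ a0nn)
  push_neg at h1
  have a0pos : 0 < a 0 := by
    rcases a0nn.lt_or_eq with h | h
    · exact h
    · have := cs 1
      rw [← h, zero_mul] at this
      nlinarith
  set r := a 1 / a 0 with hr
  have rpos : 0 < r := div_pos h1 a0pos
  have low : ∀ k : ℕ, a 0 * r ^ (2 ^ k) ≤ a (2 ^ k) := by
    intro k
    induction k with
    | zero =>
      simp only [pow_zero, pow_one]
      rw [hr, mul_div_cancel₀ _ a0pos.ne']
    | succ k ih =>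
      have h2 := cs (2 ^ k)
      have h3 : (a 0 * r ^ (2 ^ k)) ^ 2 ≤ a (2 ^ k) ^ 2 :=
        pow_le_pow_left₀ (mul_nonneg a0nn (pow_nonneg rpos.le _)) ih 2
      have h4 : a 0 * (a 0 * r ^ (2 ^ (k + 1))) ≤ a 0 * a (2 ^ (k + 1)) := by
        have e : a 0 * (a 0 * r ^ (2 ^ (k + 1))) = (a 0 * r ^ (2 ^ k)) ^ 2 := by
          rw [pow_succ 2 k, pow_mul]; ring
        have e2 : 2 * 2 ^ k = 2 ^ (k + 1) := by ring
        rw [e, ← e2]
        exact h3.trans h2
      exact le_of_mul_le_mul_left h4 a0pos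
  have up : ∀ j : ℕ, a j ≤ M ^ 2 * (τ ^ j * volume.real (ball (0 : E N) 1)) := by
    intro j
    have f1 := it_facts hHK hINT hs hA hb j
    have pl := pow_le hHK hINT hs hA hb hv hM0 hM j
    have i1 := (hINT N s A v _ hs hA hb hv (bj j)).2.2.2.2.1
    have i2 : Integrable (fun x => M ^ 2 * it N s A j x) :=
      ((hINT N s A _ _ hs hA hb f1.1 f1.1).2.2.2.1).const_mul _
    have h2 : a j ≤ ∫ x, M ^ 2 * it N s A j x := by
      refine integral_mono i1 i2 fun x => ?_
      simp only
      calc v x * (TA N s A)^[j] v x ≤ |v x * (TA N s A)^[j] v x| := le_abs_self _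
        _ = |v x| * |(TA N s A)^[j] v x| := abs_mul _ _
        _ ≤ M * (M * it N s A j x) :=
          mul_le_mul (hM x) (pl x) (abs_nonneg _) hM0
        _ = M ^ 2 * it N s A j x := by ring
    rw [integral_const_mul] at h2
    have h3 : ∫ x, it N s A j x ≤ τ ^ j * volume.real (ball (0 : E N) 1) :=
      (hPhi j).trans (ballbound hHK hINT hs hτ hball j)
    exact h2.trans (mul_le_mul_of_nonneg_left h3 (sq_nonneg M))
  have both : ∀ k : ℕ, a 0 * r ^ (2 ^ k) ≤ M ^ 2 * volume.real (ball (0 : E N) 1) * τ ^ (2 ^ k) :=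
    fun k => ((low k).trans (up _)).trans_eq (by ring)
  by_contra hcon
  push_neg at hcon
  have hrt : τ < r := by
    rw [hr, lt_div_iff₀ a0pos]; exact hcon
  rcases hτ.lt_or_eq with hτ' | hτ'
  · have q1 : 1 < r / τ := by rwa [one_lt_div hτ']
    set C := M ^ 2 * volume.real (ball (0 : E N) 1) / a 0 with hC
    have q2 : ∀ k : ℕ, (r / τ) ^ k ≤ C := by
      intro k
      have h2 : (r / τ) ^ k ≤ (r / τ) ^ (2 ^ k) :=
        pow_le_pow_right₀ q1.le Nat.lt_two_pow_self.le
      refine h2.trans ?_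
      rw [div_pow, hC, div_le_div_iff₀ (pow_pos hτ' _) a0pos]
      have := both k
      linarith
    obtain ⟨k, hk⟩ := pow_unbounded_of_one_lt C q1
    exact absurd (q2 k) (not_le.2 hk)
  · have := both 0
    rw [← hτ'] at this
    simp only [pow_zero, pow_one, mul_zero] at this
    have h5 : 0 < a 0 * r := mul_pos a0pos rpos
    linarith

end Pool.Agent.H77.LK
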