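import Pool.Agent.H85.LK.Targets

set_option autoImplicit false

open MeasureTheory Metric Set ProbabilityTheory
open scoped ENNReal

namespace Pool.Agent.H77.LK
open Pool.Agent.H85.LK

variable {N : ℕ} {s : ℝ}

theorem hk_symm (N : ℕ) (s : ℝ) (x y : E N) : hk N s (x - y) = hk N s (y - x) := by
  unfold hk
  rw [norm_sub_rev]

theorem sm_nonneg (hHK : T_HK) (hs : 0 < s) {f : E N → ℝ} (hf : ∀ x, 0 ≤ f x) (x : E N) :
    0 ≤ sm N s f x := by
  unfold sm
  exact integral_nonneg fun y => mul_nonneg ((hHK N s hs).1 _).le (hf y)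

theorem sm_mono (hHK : T_HK) (hINT : T_INT) (hs : 0 < s) {A : Set (E N)} (hA : MeasurableSet A)
    (hb : Bornology.IsBounded A) {f g : E N → ℝ} (hf : Bd A f) (hg : Bd A g)
    (h : ∀ x, f x ≤ g x) (x : E N) : sm N s f x ≤ sm N s g x := by
  unfold sm
  refine integral_mono ((hINT N s A f g hs hA hb hf hg).2.2.2.2.2.2.2.2.2.1 x)
    ((hINT N s A g f hs hA hb hg hf).2.2.2.2.2.2.2.2.2.1 x) fun y => ?_
  exact mul_le_mul_of_nonneg_left (h y) ((hHK N s hs).1 _).le

theorem bd_ind {A : Set (E N)} (hA : MeasurableSet A) : Bd A (A.indicator (fun _ => (1 : ℝ))) := by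
  refine ⟨measurable_const.indicator hA, ⟨1, fun x => ?_⟩, fun x hx => by simp [hx]⟩
  by_cases h : x ∈ A <;> simp [h]

theorem bd_indicator {A : Set (E N)} (hA : MeasurableSet A) {f : E N → ℝ} (hf : Measurable f)
    {M : ℝ} (hM : ∀ x, |f x| ≤ M) : Bd A (A.indicator f) := by
  refine ⟨hf.indicator hA, ⟨M, fun x => ?_⟩, fun x hx => by simp [hx]⟩
  by_cases h : x ∈ A
  · simpa [h] using hM x
  · simp only [h, not_false_eq_true, indicator_of_notMem, abs_zero]
    exact (abs_nonneg _).trans (hM x)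

theorem bd_mono {A B : Set (E N)} (h : A ⊆ B) {f : E N → ℝ} (hf : Bd A f) : Bd B f :=
  ⟨hf.1, hf.2.1, fun x hx => hf.2.2 x fun hA => hx (h hA)⟩

theorem bd_sub {A : Set (E N)} {f g : E N → ℝ} (hf : Bd A f) (hg : Bd A g) :
    Bd A (fun x => f x - g x) := by
  obtain ⟨M, hM⟩ := hf.2.1
  obtain ⟨M', hM'⟩ := hg.2.1
  refine ⟨hf.1.sub hg.1, ⟨M + M', fun x => ?_⟩, fun x hx => by simp [hf.2.2 x hx, hg.2.2 x hx]⟩
  exact (abs_sub _ _).trans (add_le_add (hM x) (hM' x))

theorem bd_add {A : Set (E N)} {f g : E N → ℝ} (hf : Bd A f) (hg : Bd A g) :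
    Bd A (fun x => f x + g x) := by
  obtain ⟨M, hM⟩ := hf.2.1
  obtain ⟨M', hM'⟩ := hg.2.1
  refine ⟨hf.1.add hg.1, ⟨M + M', fun x => ?_⟩, fun x hx => by simp [hf.2.2 x hx, hg.2.2 x hx]⟩
  exact (abs_add_le _ _).trans (add_le_add (hM x) (hM' x))

theorem bd_const_mul {A : Set (E N)} {f : E N → ℝ} (c : ℝ) (hf : Bd A f) :
    Bd A (fun x => c * f x) := by
  obtain ⟨M, hM⟩ := hf.2.1
  refine ⟨hf.1.const_mul c, ⟨|c| * M, fun x => ?_⟩, fun x hx => by simp [hf.2.2 x hx]⟩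
  rw [abs_mul]
  exact mul_le_mul_of_nonneg_left (hM x) (abs_nonneg c)

theorem bd_abs {A : Set (E N)} {f : E N → ℝ} (hf : Bd A f) : Bd A (fun x => |f x|) := by
  obtain ⟨M, hM⟩ := hf.2.1
  refine ⟨hf.1.abs, ⟨M, fun x => by rw [abs_abs]; exact hM x⟩, fun x hx => by
    simp [hf.2.2 x hx]⟩

theorem it_nonneg (hHK : T_HK) (hs : 0 < s) (A : Set (E N)) (m : ℕ) (x : E N) :
    0 ≤ it N s A m x := by
  induction m generalizing x with
  | zero => exact indicator_nonneg (fun _ _ => zero_le_one) x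
  | succ m ih =>
    exact indicator_nonneg (fun y _ => sm_nonneg hHK hs ih y) x

theorem it_facts (hHK : T_HK) (hINT : T_INT) (hs : 0 < s) {A : Set (E N)} (hA : MeasurableSet A)
    (hb : Bornology.IsBounded A) (m : ℕ) :
    Bd A (it N s A m) ∧ ∀ x, 0 ≤ it N s A m x ∧ it N s A m x ≤ 1 := by
  induction m with
  | zero =>
    refine ⟨bd_ind hA, fun x => ⟨it_nonneg hHK hs A 0 x, ?_⟩⟩
    simp only [it]
    by_cases h : x ∈ A <;> simp [h]
  | succ m ih =>
    have h1 := hINT N s A (it N s A m) (it N s A m) hs hA hb ih.1 ih.1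
    have h2 : ∀ x, |sm N s (it N s A m) x| ≤ 1 := by
      refine h1.2.2.2.2.2.2.2.2.1 1 fun x => ?_
      rw [abs_of_nonneg (ih.2 x).1]; exact (ih.2 x).2
    refine ⟨bd_indicator hA h1.2.2.2.2.2.2.1 h2, fun x => ⟨it_nonneg hHK hs A (m + 1) x, ?_⟩⟩
    simp only [it]
    by_cases h : x ∈ A
    · simp only [h, indicator_of_mem]
      exact (le_abs_self _).trans (h2 x)
    · simp [h]

theorem sm_sub (hINT : T_INT) (hs : 0 < s) {A : Set (E N)} (hA : MeasurableSet A)
    (hb : Bornology.IsBounded A) {f g : E N → ℝ} (hf : Bd A f) (hg : Bd A g) (x : E N) :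
    sm N s (fun y => f y - g y) x = sm N s f x - sm N s g x := by
  unfold sm
  rw [← integral_sub ((hINT N s A f g hs hA hb hf hg).2.2.2.2.2.2.2.2.2.1 x)
    ((hINT N s A g f hs hA hb hg hf).2.2.2.2.2.2.2.2.2.1 x)]
  exact integral_congr_ae (Filter.Eventually.of_forall fun y => by simp only; ring)

/-- symmetry of the form -/
theorem sm_symm (hINT : T_INT) (hs : 0 < s) {A : Set (E N)} (hA : MeasurableSet A)
    (hb : Bornology.IsBounded A) {f g : E N → ℝ} (hf : Bd A f) (hg : Bd A g) :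
    ∫ x, f x * sm N s g x = ∫ x, sm N s f x * g x := by
  have h1 := (hINT N s A f g hs hA hb hf hg).1
  have e1 : ∫ x, f x * sm N s g x = ∫ x, ∫ y, hk N s (x - y) * (f x * g y) := by
    congr 1; ext x; unfold sm
    rw [← integral_const_mul]; congr 1; ext y; ring
  have e2 : ∫ x, sm N s f x * g x = ∫ y, ∫ x, hk N s (x - y) * (f x * g y) := by
    congr 1; ext y; unfold sm
    rw [← integral_mul_const]; congr 1; ext x
    rw [hk_symm N s y x]; ring
  rw [e1, e2]
  exact integral_integral_swap h1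

end Pool.Agent.H77.LK
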